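import Pool.Agent.Helper12.RQ.Goals

/-! # Ring `Q`-homeomorphisms from star functions -/

set_option autoImplicit false

open MeasureTheory Set Filter Topology Metric

open scoped ENNReal NNReal ContDiff

namespace Pool.Agent.Helper45.RQ

open Pool.Agent.Helper12.RQ

/-- transfer of an integral of a function of one variable -/
theorem transfer {X : Type*} [MeasurableSpace X] (μ : Measure X) (F : X → ℝ) (hF : Measurable F)
    (w : X → ℝ≥0∞) (hw : Measurable w) (g : ℝ → ℝ≥0∞) (hg : Measurable g) (B : Set ℝ)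
    (hB : MeasurableSet B) :
    ∫⁻ x in F ⁻¹' B, g (F x) * w x ∂μ = ∫⁻ r in B, g r ∂((μ.withDensity w).map F) := by
  have hcomp : Measurable (fun x => g (F x)) := hg.comp hF
  rw [setLIntegral_map hB hg hF, restrict_withDensity (hF hB),
    lintegral_withDensity_eq_lintegral_mul _ hw hcomp]
  refine lintegral_congr fun x => ?_
  simp only [Pi.mul_apply]
  rw [mul_comm]

theorem irq (h : StmtRING) : StmtIRQ := by
  intro n p c l N f G Q hp hN hNf hG hQ hflux
  have hLip : LipschitzWith (Real.toNNReal l) N := by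
    refine LipschitzWith.of_dist_le' fun y z => ?_
    rw [Real.dist_eq, dist_eq_norm]
    exact hN.lip y z
  have hNm : Measurable N := hLip.continuous.measurable
  refine ⟨f.isOpenEmbedding.comp hG.isOpenEmbedding_subtypeVal, ?_⟩
  intro r₁ r₂ hr₁ hr hball η hη h1
  have hA : ∀ y ∈ f '' sphere (0 : E n) r₁, N y = r₁ := by
    rintro _ ⟨x, hx, rfl⟩
    rw [hNf]; simpa using hx
  have hB : ∀ y ∈ f '' sphere (0 : E n) r₂, N y = r₂ := by
    rintro _ ⟨x, hx, rfl⟩
    rw [hNf]; simpa using hx
  refine (h n p hp N ⟨_, hLip⟩ (f '' sphere 0 r₁) (f '' sphere 0 r₂) (f '' G) r₁ r₂ hr hA hB η hη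
    h1).trans ?_
  have hwm : Measurable (fun y => ‖fderiv ℝ N y‖ₑ ^ p) :=
    (measurable_fderiv ℝ N).enorm.pow_const p
  have hgm : Measurable (fun r => η r ^ p) := hη.pow_const p
  rw [transfer volume N hNm _ hwm _ hgm _ measurableSet_Ioo]
  have hnm : Measurable (fun x : E n => ‖x‖) := measurable_norm
  have hR : ∫⁻ x in {x : E n | r₁ < dist x 0 ∧ dist x 0 < r₂}, Q x * η (dist x 0) ^ p =
      ∫⁻ r in Ioo r₁ r₂, η r ^ p ∂((volume.withDensity Q).map (fun x : E n => ‖x‖)) := by
    rw [← transfer volume _ hnm Q hQ _ hgm _ measurableSet_Ioo]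
    simp only [dist_zero_right]
    refine lintegral_congr fun x => ?_
    rw [mul_comm]
  rw [hR]
  refine lintegral_mono' ?_ le_rfl
  rw [Measure.le_iff]
  intro s hs
  rw [Measure.restrict_apply hs, Measure.restrict_apply hs]
  have hsm : MeasurableSet (s ∩ Ioo r₁ r₂) := hs.inter measurableSet_Ioo
  rw [Measure.map_apply hNm hsm, Measure.map_apply hnm hsm, withDensity_apply _ (hNm hsm),
    withDensity_apply _ (hnm hsm)]
  exact hflux r₂ (hr₁.trans hr) hball _ hsm (fun r hr' => ⟨hr₁.trans hr'.2.1, hr'.2.2⟩)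

end Pool.Agent.Helper45.RQ
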