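import Pool.Agent.Helper12.RQ.Goals

/-! # Upper bound for the module by a level function -/

set_option autoImplicit false

open MeasureTheory Set Filter Topology Metric

open scoped ENNReal NNReal ContDiff

namespace Pool.Agent.Helper45.RQ

open Pool.Agent.Helper12.RQ

/-- crossing an interval -/
theorem crossing (h : ℝ → ℝ) (hc : Continuous h) (a b x y : ℝ) (hab : a < b) (ha : h a < x)
    (hxy : x < y) (hb : y < h b) :
    ∃ t' t'' : ℝ, a ≤ t' ∧ t' < t'' ∧ t'' ≤ b ∧ h t' ≤ x ∧ y ≤ h t'' ∧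
      ∀ t ∈ Ioo t' t'', x < h t ∧ h t < y := by
  set S1 : Set ℝ := Icc a b ∩ {t | y ≤ h t} with hS1
  have hS1c : IsClosed S1 := isClosed_Icc.inter (isClosed_le continuous_const hc)
  have hS1ne : S1.Nonempty := ⟨b, ⟨hab.le, le_rfl⟩, hb.le⟩
  have hS1b : BddBelow S1 := ⟨a, fun t ht => ht.1.1⟩
  have h1 : sInf S1 ∈ S1 := hS1c.csInf_mem hS1ne hS1b
  set t2 := sInf S1 with ht2
  have hlt2 : ∀ t, a ≤ t → t < t2 → h t < y := by
    intro t hat htt
    by_contra hcon
    have : t2 ≤ t := csInf_le hS1b ⟨⟨hat, htt.le.trans h1.1.2⟩, not_lt.mp hcon⟩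
    linarith
  set S2 : Set ℝ := Icc a t2 ∩ {t | h t ≤ x} with hS2
  have hS2c : IsClosed S2 := isClosed_Icc.inter (isClosed_le hc continuous_const)
  have hS2ne : S2.Nonempty := ⟨a, ⟨le_rfl, h1.1.1⟩, ha.le⟩
  have hS2b : BddAbove S2 := ⟨t2, fun t ht => ht.1.2⟩
  have h2 : sSup S2 ∈ S2 := hS2c.csSup_mem hS2ne hS2b
  set t1 := sSup S2 with ht1
  have hgt1 : ∀ t, t1 < t → t ≤ t2 → x < h t := by
    intro t hat htt
    by_contra hcon
    have : t ≤ t1 := le_csSup hS2b ⟨⟨h2.1.1.trans hat.le, htt⟩, not_lt.mp hcon⟩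
    linarith
  refine ⟨t1, t2, h2.1.1, ?_, h1.1.2, h2.2, h1.2, fun t ht => ⟨hgt1 t ht.1 ht.2.le,
    hlt2 t (h2.1.1.trans ht.1.le) ht.2⟩⟩
  rcases h2.1.2.lt_or_eq with h3 | h3
  · exact h3
  · exfalso
    have h4 : h t1 ≤ x := h2.2
    have h5 : y ≤ h t2 := h1.2
    rw [h3] at h4
    linarith

/-- the variation over an interval -/
theorem variation (h : ℝ → ℝ) (C : ℝ≥0) (hL : LipschitzWith C h) (s t : ℝ) (hst : s < t) :
    ENNReal.ofReal (h t - h s) ≤ ∫⁻ r in Ioo s t, ‖deriv h r‖ₑ := by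
  have hac : AbsolutelyContinuousOnInterval h s t :=
    (hL.lipschitzOnWith (s := uIcc s t)).absolutelyContinuousOnInterval
  have h1 : ∫ r in s..t, deriv h r = h t - h s := hac.integral_deriv_eq_sub
  rw [intervalIntegral.integral_of_le hst.le, integral_Ioc_eq_integral_Ioo] at h1
  rw [← h1]
  calc ENNReal.ofReal (∫ r in Ioo s t, deriv h r) ≤ ‖∫ r in Ioo s t, deriv h r‖ₑ := by
        rw [← ofReal_norm]
        exact ENNReal.ofReal_le_ofReal (Real.le_norm_self _)
    _ ≤ ∫⁻ r in Ioo s t, ‖deriv h r‖ₑ := enorm_integral_le_lintegral_enorm _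

/-- the one dimensional estimate -/
theorem one_dim (hU1 : StmtU1) (h : ℝ → ℝ) (C : ℝ≥0) (hL : LipschitzWith C h) (a b r₁ r₂ : ℝ)
    (hab : a < b) (ha : h a = r₁) (hb : h b = r₂) (η : ℝ → ℝ≥0∞) (hη : Measurable η) :
    ∫⁻ r in Ioo r₁ r₂, η r ≤
      ∫⁻ t in Icc a b ∩ h ⁻¹' Ioo r₁ r₂, η (h t) * ‖deriv h t‖ₑ := by
  have hhm : Measurable h := hL.continuous.measurable
  have hdm : Measurable (fun t => ‖deriv h t‖ₑ) := (measurable_deriv h).enorm
  set ν₀ : Measure ℝ := (volume.restrict (Icc a b)).withDensity (fun t => ‖deriv h t‖ₑ) with hν₀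
  set ν : Measure ℝ := ν₀.map h with hν
  have hνB : ∀ B, MeasurableSet B → ν B = ∫⁻ t in Icc a b ∩ h ⁻¹' B, ‖deriv h t‖ₑ := by
    intro B hB
    rw [hν, Measure.map_apply hhm hB, hν₀, withDensity_apply _ (hhm hB),
      Measure.restrict_restrict (hhm hB), inter_comm]
  have hfin : ∀ x y, r₁ < x → x < y → y < r₂ → ν (Ioo x y) < ⊤ := by
    intro x y _ _ _
    rw [hνB _ measurableSet_Ioo]
    calc ∫⁻ t in Icc a b ∩ h ⁻¹' Ioo x y, ‖deriv h t‖ₑ
        ≤ ∫⁻ t in Icc a b ∩ h ⁻¹' Ioo x y, (C : ℝ≥0∞) := by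
          refine lintegral_mono fun t => ?_
          have h1 : ‖deriv h t‖ ≤ C := norm_deriv_le_of_lipschitz hL
          have h2 : ‖deriv h t‖₊ ≤ C := h1
          rw [enorm_eq_nnnorm]
          exact ENNReal.coe_le_coe.mpr h2
      _ = C * volume (Icc a b ∩ h ⁻¹' Ioo x y) := by rw [setLIntegral_const]
      _ ≤ C * volume (Icc a b) := by gcongr; exact inter_subset_left
      _ < ⊤ := by
          rw [Real.volume_Icc]
          exact ENNReal.mul_lt_top ENNReal.coe_lt_top ENNReal.ofReal_lt_top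
  have hle : ∀ x y, r₁ < x → x < y → y < r₂ → volume (Ioo x y) ≤ ν (Ioo x y) := by
    intro x y hx hxy hy
    rw [hνB _ measurableSet_Ioo, Real.volume_Ioo]
    obtain ⟨t', t'', h1, h2, h3, h4, h5, h6⟩ := crossing h hL.continuous a b x y hab
      (by rw [ha]; exact hx) hxy (by rw [hb]; exact hy)
    calc ENNReal.ofReal (y - x) ≤ ENNReal.ofReal (h t'' - h t') :=
          ENNReal.ofReal_le_ofReal (by linarith)
      _ ≤ ∫⁻ r in Ioo t' t'', ‖deriv h r‖ₑ := variation h C hL t' t'' h2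
      _ ≤ _ := by
          refine lintegral_mono_set fun t ht => ?_
          exact ⟨⟨h1.trans ht.1.le, ht.2.le.trans h3⟩, h6 t ht⟩
  have hmeas : volume.restrict (Ioo r₁ r₂) ≤ ν.restrict (Ioo r₁ r₂) := by
    rw [Measure.le_iff]
    intro s hs
    rw [Measure.restrict_apply hs, Measure.restrict_apply hs]
    exact hU1 volume ν r₁ r₂ hfin hle _ (hs.inter measurableSet_Ioo) inter_subset_right
  have hcomp : Measurable (fun t => η (h t)) := hη.comp hhm
  calc ∫⁻ r in Ioo r₁ r₂, η r ≤ ∫⁻ r in Ioo r₁ r₂, η r ∂ν := lintegral_mono' hmeas le_rfl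
    _ = ∫⁻ t in h ⁻¹' Ioo r₁ r₂, η (h t) ∂ν₀ := by
        rw [hν, setLIntegral_map measurableSet_Ioo hη hhm]
    _ = ∫⁻ t in Icc a b ∩ h ⁻¹' Ioo r₁ r₂, η (h t) * ‖deriv h t‖ₑ := by
        rw [hν₀, restrict_withDensity (hhm measurableSet_Ioo),
          lintegral_withDensity_eq_lintegral_mul _ hdm hcomp,
          Measure.restrict_restrict (hhm measurableSet_Ioo), inter_comm]
        refine lintegral_congr fun t => ?_
        simp only [Pi.mul_apply]
        rw [mul_comm]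

open Classical in
theorem ring (hU1 : StmtU1) : StmtRING := by
  intro n p hp N hN A B D r₁ r₂ hr hA hB η hη h1
  obtain ⟨C, hC⟩ := hN
  set Z : Set (E n) := {y | ¬ DifferentiableAt ℝ N y} with hZ
  have hZm : MeasurableSet Z := (measurableSet_of_differentiableAt ℝ N).compl
  have hZ0 : ∀ᵐ y : E n, DifferentiableAt ℝ N y := hC.ae_differentiableAt
  have hNm : Measurable N := hC.continuous.measurable
  have hfm : Measurable (fun y => ‖fderiv ℝ N y‖ₑ) := (measurable_fderiv ℝ N).enorm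
  set ρ : E n → ℝ≥0∞ := fun y => if r₁ < N y ∧ N y < r₂ then
    (if y ∈ Z then ⊤ else η (N y) * ‖fderiv ℝ N y‖ₑ) else 0 with hρ
  have hSm : MeasurableSet (N ⁻¹' Ioo r₁ r₂) := hNm measurableSet_Ioo
  have hρm : Measurable ρ := by
    refine Measurable.ite hSm ?_ measurable_const
    exact Measurable.ite hZm measurable_const ((hη.comp hNm).mul hfm)
  have hint : ∫⁻ y, ρ y ^ p = ∫⁻ y in N ⁻¹' Ioo r₁ r₂, η (N y) ^ p * ‖fderiv ℝ N y‖ₑ ^ p := by
    rw [← lintegral_indicator hSm]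
    refine lintegral_congr_ae ?_
    filter_upwards [hZ0] with y hy
    by_cases hy' : r₁ < N y ∧ N y < r₂
    · rw [indicator_of_mem (show y ∈ N ⁻¹' Ioo r₁ r₂ from hy')]
      have h2 : y ∉ Z := fun h => h hy
      simp only [hρ, if_pos hy', if_neg h2]
      exact ENNReal.mul_rpow_of_nonneg _ _ hp.le
    · rw [indicator_of_notMem (show y ∉ N ⁻¹' Ioo r₁ r₂ from hy')]
      simp only [hρ, if_neg hy']
      exact ENNReal.zero_rpow_of_pos hp
  rw [← hint]
  refine iInf₂_le ρ ⟨hρm, fun γ hγ => ?_⟩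
  obtain ⟨hγa, hγb, _⟩ := hγ
  obtain ⟨K, hK⟩ := γ.lip
  set h : ℝ → ℝ := fun t => N (γ.toFun t) with hh
  have hL : LipschitzWith (C * K) h := hC.comp hK
  have hγm : Measurable γ.toFun := hK.continuous.measurable
  have hdγ : Measurable (fun t => ‖deriv γ.toFun t‖ₑ) := (measurable_deriv γ.toFun).enorm
  set T : Set ℝ := Icc γ.a γ.b ∩ h ⁻¹' Ioo r₁ r₂ with hT
  have hTm : MeasurableSet T := measurableSet_Icc.inter (hL.continuous.measurable measurableSet_Ioo)
  set S : Set ℝ := T ∩ (γ.toFun ⁻¹' Z ∩ {t | deriv γ.toFun t ≠ 0}) with hS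
  have hSm' : MeasurableSet S := by
    refine hTm.inter ((hγm hZm).inter ?_)
    exact (measurable_deriv γ.toFun) (measurableSet_singleton (0 : E n)).compl
  unfold Curve.lineInt
  by_cases hS0 : volume S = 0
  · -- the curve meets `Z` only with zero speed
    have hmain := one_dim hU1 h (C * K) hL γ.a γ.b r₁ r₂ γ.lt (hA _ hγa) (hB _ hγb) η hη
    refine h1.trans (hmain.trans ?_)
    refine le_trans ?_ (lintegral_mono_set (show T ⊆ Icc γ.a γ.b from inter_subset_left))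
    refine lintegral_mono_ae ?_
    rw [ae_restrict_iff' hTm]
    have hSae : ∀ᵐ t : ℝ, t ∉ S := measure_eq_zero_iff_ae_notMem.mp hS0
    have hγd : ∀ᵐ t : ℝ, DifferentiableAt ℝ γ.toFun t := hK.ae_differentiableAt
    filter_upwards [hSae, hγd] with t htS htd htT
    have htr : r₁ < N (γ.toFun t) ∧ N (γ.toFun t) < r₂ := htT.2
    by_cases hz : deriv γ.toFun t = 0
    · -- zero speed
      have h2 : HasDerivAt γ.toFun 0 t := by rw [← hz]; exact htd.hasDerivAt
      have h3 : HasDerivAt h 0 t := by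
        rw [hasDerivAt_iff_isLittleO] at h2 ⊢
        simp only [smul_zero, sub_zero] at h2 ⊢
        refine Asymptotics.IsBigO.trans_isLittleO ?_ h2
        refine Asymptotics.IsBigO.of_bound C (Eventually.of_forall fun s => ?_)
        exact hC.norm_sub_le _ _
      rw [h3.deriv]
      simp
    · have hz' : γ.toFun t ∉ Z := fun hzz => htS ⟨htT, hzz, hz⟩
      have hNd : DifferentiableAt ℝ N (γ.toFun t) := by
        by_contra hcon; exact hz' hcon
      have h3 : HasDerivAt h (fderiv ℝ N (γ.toFun t) (deriv γ.toFun t)) t :=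
        hNd.hasFDerivAt.comp_hasDerivAt t htd.hasDerivAt
      have h4 : ρ (γ.toFun t) = η (h t) * ‖fderiv ℝ N (γ.toFun t)‖ₑ := by
        simp only [hρ, if_pos htr, if_neg hz']
        rfl
      rw [h3.deriv, h4, mul_assoc]
      gcongr
      exact ContinuousLinearMap.le_opENorm _ _
  · -- infinite line integral
    have h2 : ∫⁻ t in Icc γ.a γ.b, ρ (γ.toFun t) * ‖deriv γ.toFun t‖ₑ = ⊤ := by
      rw [eq_top_iff]
      have h3 : ∫⁻ t in S, ρ (γ.toFun t) * ‖deriv γ.toFun t‖ₑ = ∫⁻ t in S, (⊤ : ℝ≥0∞) := by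
        refine setLIntegral_congr_fun hSm' fun t ht => ?_
        have htr : r₁ < N (γ.toFun t) ∧ N (γ.toFun t) < r₂ := ht.1.2
        have h4 : ρ (γ.toFun t) = ⊤ := by
          simp only [hρ, if_pos htr]
          exact if_pos ht.2.1
        have h5 : ‖deriv γ.toFun t‖ₑ ≠ 0 := by
          rw [Ne, enorm_eq_zero]; exact ht.2.2
        rw [h4, ENNReal.top_mul h5]
      have h6 : ∫⁻ t in S, (⊤ : ℝ≥0∞) = ⊤ := by
        rw [setLIntegral_const, ENNReal.top_mul hS0]
      rw [← h6, ← h3]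
      exact lintegral_mono_set (fun t ht => ht.1.1)
    rw [h2]
    exact le_top

end Pool.Agent.Helper45.RQ
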